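import Mathlib

open Finset
open scoped symmDiff

namespace Pool.Agent.Results.MP_6e06a5_co.DegOne

/-- The `L × L` toroidal grid: `(i,j)` is adjacent to `(i ± 1, j)` and `(i, j ± 1)`. -/
def torus (L : ℕ) : SimpleGraph (ZMod L × ZMod L) :=
  SimpleGraph.fromRel (fun u v => v = u + (1, 0) ∨ v = u + (0, 1))

/-- The number of edges of `J` incident to `v`. -/
def jdeg {L : ℕ} (J : Finset (Sym2 (ZMod L × ZMod L))) (v : ZMod L × ZMod L) : ℕ :=
  (J.filter (fun e => v ∈ e)).card

/-- `J` is a `D`-join of the toroidal grid. -/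
def IsJoin {L : ℕ} (D : Finset (ZMod L × ZMod L)) (J : Finset (Sym2 (ZMod L × ZMod L))) : Prop :=
  (∀ e ∈ J, e ∈ (torus L).edgeSet) ∧ (∀ v ∈ D, Odd (jdeg J v)) ∧ (∀ v, v ∉ D → Even (jdeg J v))

abbrev V (L : ℕ) := ZMod L × ZMod L

variable {L : ℕ}

def d (k : Fin 4) : V L := ![(1, 0), (0, 1), (-1, 0), (0, -1)] k

def E (v : V L) (k : Fin 4) : Sym2 (V L) := s(v, v + d k)

theorem one_ne (hL : 3 ≤ L) : (1 : ZMod L) ≠ 0 := by
  intro h
  have : (L : ℕ) ∣ 1 := (ZMod.natCast_eq_zero_iff 1 L).1 (by simpa using h)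
  have := Nat.le_of_dvd (by norm_num) this
  omega

theorem two_ne (hL : 3 ≤ L) : (1 : ZMod L) ≠ -1 := by
  intro h
  have h2 : ((2 : ℕ) : ZMod L) = 0 := by
    push_cast
    linear_combination h
  have : (L : ℕ) ∣ 2 := (ZMod.natCast_eq_zero_iff 2 L).1 h2
  have := Nat.le_of_dvd (by norm_num) this
  omega

theorem d_neg (k : Fin 4) : (d (k + 2) : V L) = - d k := by
  fin_cases k <;> simp [d]

theorem d_inj (hL : 3 ≤ L) {a b : Fin 4} (h : (d a : V L) = d b) : a = b := by
  have h1 := one_ne hL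
  have h2 := two_ne hL
  have h3 : (-1 : ZMod L) ≠ 0 := by simpa using h1
  fin_cases a <;> fin_cases b <;> simp_all [d, eq_comm]

theorem d_ne (hL : 3 ≤ L) (a : Fin 4) : (d a : V L) ≠ 0 := by
  have h1 := one_ne hL
  fin_cases a <;> simp_all [d]

theorem E_eq (hL : 3 ≤ L) {u w : V L} {a b : Fin 4} (h : E u a = E w b) :
    (u = w ∧ a = b) ∨ (w = u + d a ∧ b = a + 2) := by
  unfold E at h
  rcases Sym2.eq_iff.1 h with ⟨h1, h2⟩ | ⟨h1, h2⟩
  · left
    subst h1
    exact ⟨rfl, d_inj hL (add_left_cancel h2)⟩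
  · right
    refine ⟨h2.symm, d_inj hL ?_⟩
    rw [d_neg]
    linear_combination -h1 - h2 + 2 * h2

theorem E_flip (u : V L) (a : Fin 4) : E (u + d a) (a + 2) = E u a := by
  unfold E
  rw [d_neg, add_neg_cancel_right, Sym2.eq_swap]

theorem E_edge (hL : 3 ≤ L) (u : V L) (a : Fin 4) : E u a ∈ (torus L).edgeSet := by
  have hne : u ≠ u + d a := by
    intro h
    exact d_ne hL a (by linear_combination -h)
  simp only [E, SimpleGraph.mem_edgeSet, torus, SimpleGraph.fromRel_adj]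
  refine ⟨hne, ?_⟩
  fin_cases a
  · left; left; simp [d]
  · left; right; simp [d]
  · right; left; ext <;> simp [d]
  · right; right; ext <;> simp [d]

theorem edge_E {e : Sym2 (V L)} (he : e ∈ (torus L).edgeSet) {v : V L} (hv : v ∈ e) :
    ∃ a, e = E v a := by
  have key : ∀ u w : V L, (torus L).Adj u w → ∃ a, w = u + d a := by
    intro u w h
    simp only [torus, SimpleGraph.fromRel_adj] at h
    rcases h.2 with (h | h) | (h | h)
    · exact ⟨0, by simpa [d] using h⟩
    · exact ⟨1, by simpa [d] using h⟩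
    · exact ⟨2, by rw [h]; ext <;> simp [d]⟩
    · exact ⟨3, by rw [h]; ext <;> simp [d]⟩
  induction e using Sym2.ind with
  | h a b =>
    rcases Sym2.mem_iff.1 hv with rfl | rfl
    · obtain ⟨k, hk⟩ := key v b he
      exact ⟨k, by rw [hk]; rfl⟩
    · obtain ⟨k, hk⟩ := key v a (SimpleGraph.Adj.symm he)
      exact ⟨k, by rw [Sym2.eq_swap, hk]; rfl⟩

theorem jdeg_eq (hL : 3 ≤ L) {J : Finset (Sym2 (V L))} (hJ : ∀ e ∈ J, e ∈ (torus L).edgeSet)
    (v : V L) : jdeg J v = (univ.filter (fun k : Fin 4 => E v k ∈ J)).card := by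
  unfold jdeg
  symm
  apply Finset.card_bij (fun k _ => E v k)
  · intro k hk
    simp only [mem_filter, mem_univ, true_and] at hk
    exact mem_filter.2 ⟨hk, by simp [E]⟩
  · intro a _ b _ h
    rcases E_eq hL h with h | h
    · exact h.2
    · exact absurd (by linear_combination -h.1) (d_ne hL a)
  · intro e he
    rw [mem_filter] at he
    obtain ⟨a, rfl⟩ := edge_E (hJ _ he.1) he.2
    exact ⟨a, by simp [he.1], rfl⟩

theorem tog_mem {α : Type*} [DecidableEq α] {J : Finset α} {e : α} (h : e ∈ J) :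
    J ∆ {e} = J.erase e := by
  ext x
  simp only [mem_symmDiff, mem_singleton, mem_erase]
  grind

theorem tog_not {α : Type*} [DecidableEq α] {J : Finset α} {e : α} (h : e ∉ J) :
    J ∆ {e} = insert e J := by
  ext x
  simp only [mem_symmDiff, mem_singleton, mem_insert]
  grind

theorem sum_tog_mem {α : Type*} [DecidableEq α] {J : Finset α} {e : α} (h : e ∈ J) (f : α → ℕ) :
    ∑ x ∈ J ∆ {e}, f x + f e = ∑ x ∈ J, f x := by
  rw [tog_mem h, sum_erase_add _ _ h]

theorem sum_tog_not {α : Type*} [DecidableEq α] {J : Finset α} {e : α} (h : e ∉ J) (f : α → ℕ) :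
    ∑ x ∈ J ∆ {e}, f x = ∑ x ∈ J, f x + f e := by
  rw [tog_not h, sum_insert h, add_comm]

theorem card_tog_mem {α : Type*} [DecidableEq α] {J : Finset α} {e : α} (h : e ∈ J) :
    (J ∆ {e}).card + 1 = J.card := by
  rw [tog_mem h, card_erase_add_one h]

theorem card_tog_not {α : Type*} [DecidableEq α] {J : Finset α} {e : α} (h : e ∉ J) :
    (J ∆ {e}).card = J.card + 1 := by
  rw [tog_not h, card_insert_of_notMem h]

theorem card_tog_le {α : Type*} [DecidableEq α] (J : Finset α) (e : α) :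
    (J ∆ {e}).card ≤ J.card + 1 := by
  by_cases h : e ∈ J
  · have := card_tog_mem h; omega
  · have := card_tog_not h; omega

def dl (a v : V L) : ZMod 2 := if v = a then 1 else 0

/-- edge set with prescribed degree parities -/
def PJ (f : V L → ZMod 2) (J : Finset (Sym2 (V L))) : Prop :=
  (∀ e ∈ J, e ∈ (torus L).edgeSet) ∧ ∀ v, (jdeg J v : ZMod 2) = f v

theorem PJ_tog (hL : 3 ≤ L) {f : V L → ZMod 2} {J : Finset (Sym2 (V L))} (h : PJ f J) (w : V L)
    (j : Fin 4) : PJ (fun v => f v + dl w v + dl (w + d j) v) (J ∆ {E w j}) := by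
  have hne : w ≠ w + d j := by
    intro h
    exact d_ne hL j (by linear_combination -h)
  constructor
  · intro e he
    rw [mem_symmDiff] at he
    rcases he with he | he
    · exact h.1 e he.1
    · rw [mem_singleton.1 he.1]; exact E_edge hL w j
  · intro v
    have hd : ((if v ∈ E w j then 1 else 0 : ℕ) : ZMod 2) = dl w v + dl (w + d j) v := by
      unfold dl E
      by_cases h1 : v = w
      · subst h1; simp [hne]
      · by_cases h2 : v = w + d j
        · subst h2; simp [h1]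
        · simp [h1, h2]
    have hs : ∀ K : Finset (Sym2 (V L)), jdeg K v = ∑ e ∈ K, if v ∈ e then 1 else 0 := by
      intro K; unfold jdeg; rw [card_filter]
    have h2 : (2 : ZMod 2) = 0 := rfl
    by_cases he : E w j ∈ J
    · have := sum_tog_mem he (fun e => if v ∈ e then 1 else 0)
      rw [← hs, ← hs] at this
      have h3 := congrArg (Nat.cast : ℕ → ZMod 2) this
      rw [Nat.cast_add, hd, h.2] at h3
      show _ = f v + dl w v + dl (w + d j) v
      linear_combination h3 - (dl w v + dl (w + d j) v) * h2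
    · have := sum_tog_not he (fun e => if v ∈ e then 1 else 0)
      rw [← hs, ← hs] at this
      have h3 := congrArg (Nat.cast : ℕ → ZMod 2) this
      rw [Nat.cast_add, hd, h.2] at h3
      show _ = f v + dl w v + dl (w + d j) v
      linear_combination h3

theorem PJ_congr {f g : V L → ZMod 2} {J : Finset (Sym2 (V L))} (h : PJ f J)
    (hfg : ∀ v, f v = g v) : PJ g J := ⟨h.1, fun v => (h.2 v).trans (hfg v)⟩

def ind (D : Finset (V L)) (v : V L) : ZMod 2 := if v ∈ D then 1 else 0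

theorem join_iff (D : Finset (V L)) (J : Finset (Sym2 (V L))) : IsJoin D J ↔ PJ (ind D) J := by
  unfold IsJoin PJ ind
  refine and_congr Iff.rfl ⟨fun h v => ?_, fun h => ⟨fun v hv => ?_, fun v hv => ?_⟩⟩
  · by_cases hv : v ∈ D
    · simp only [hv, if_true]; exact (ZMod.natCast_eq_one_iff_odd).2 (h.1 v hv)
    · simp only [hv, if_false]; exact (ZMod.natCast_eq_zero_iff_even).2 (h.2 v hv)
  · have := h v
    simp only [hv, if_true] at this
    exact (ZMod.natCast_eq_one_iff_odd).1 this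
  · have := h v
    simp only [hv, if_false] at this
    exact (ZMod.natCast_eq_zero_iff_even).1 this

theorem move (hL : 3 ≤ L) {f : V L → ZMod 2} (w : V L) (h : ∃ J, PJ f J) :
    ∃ J, PJ (fun v => f v + dl 0 v + dl w v) J := by
  have h2 : (2 : ZMod 2) = 0 := rfl
  have st : ∀ (j : Fin 4) (u : V L) (n : ℕ), (∃ J, PJ (fun v => f v + dl 0 v + dl u v) J) →
      ∃ J, PJ (fun v => f v + dl 0 v + dl (u + n • d j) v) J := by
    intro j u n hu
    induction n with
    | zero => simpa using hu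
    | succ n ih =>
      obtain ⟨J, hJ⟩ := ih
      refine ⟨_, PJ_congr (PJ_tog hL hJ (u + n • d j) j) fun v => ?_⟩
      rw [succ_nsmul, ← add_assoc u]
      linear_combination (dl (u + n • d j) v) * h2
  have : NeZero L := ⟨by omega⟩
  have h0 : ∃ J, PJ (fun v => f v + dl 0 v + dl 0 v) J := by
    obtain ⟨J, hJ⟩ := h
    exact ⟨J, PJ_congr hJ fun v => by linear_combination -(dl 0 v) * h2⟩
  have := st 1 _ w.2.val (st 0 0 w.1.val h0)
  have hw : (0 : V L) + w.1.val • d 0 + w.2.val • d 1 = w := by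
    ext <;> simp [d]
  rwa [hw] at this

theorem exists_join (hL : 3 ≤ L) (D : Finset (V L)) (hD : Even D.card) :
    ∃ J, PJ (ind D) J := by
  have h2 : (2 : ZMod 2) = 0 := rfl
  have key : ∀ S : Finset (V L), ∃ J, PJ (fun v => ind S v + (S.card : ZMod 2) * dl 0 v) J := by
    intro S
    induction S using Finset.induction_on with
    | empty => exact ⟨∅, by simp, fun v => by simp [jdeg, ind]⟩
    | insert a S ha ih =>
      obtain ⟨J, hJ⟩ := move hL a ih
      refine ⟨J, PJ_congr hJ fun v => ?_⟩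
      rw [card_insert_of_notMem ha]
      have : ind (insert a S) v = ind S v + dl a v := by
        unfold ind dl
        by_cases h : v = a
        · subst h; simp [ha]
        · simp [h]
      rw [this]; push_cast; ring
  obtain ⟨J, hJ⟩ := key D
  refine ⟨J, PJ_congr hJ fun v => ?_⟩
  rw [(ZMod.natCast_eq_zero_iff_even).2 hD]; simp

def Far (a b : V L) : Prop := a ≠ b ∧ ∀ j, a ≠ b + d j

theorem Far.sym {a b : V L} (h : Far a b) : Far b a := by
  refine ⟨h.1.symm, fun j hj => h.2 (j + 2) ?_⟩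
  rw [d_neg, hj]; abel

theorem far_of (hL : 3 ≤ L) {D : Finset (V L)} {τ : ℕ} (hmin : ∀ J, PJ (ind D) J → τ ≤ J.card)
    {K : Finset (Sym2 (V L))} {a b : V L} (h : PJ (fun v => ind D v + dl a v + dl b v) K)
    (hc : K.card + 2 = τ) : Far a b := by
  have h2 : (2 : ZMod 2) = 0 := rfl
  constructor
  · rintro rfl
    have := hmin K (PJ_congr h fun v => by linear_combination (dl a v) * h2)
    omega
  · rintro j rfl
    have := hmin _ (PJ_congr (PJ_tog hL h b j) fun v => by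
      linear_combination (dl b v + dl (b + d j) v) * h2)
    have := card_tog_le K (E b j)
    omega

def St (y : ℕ → V L) (B : ℕ → Finset (Sym2 (V L))) (n : ℕ) : Prop :=
  y (n + 1) = y n ∧ B (n + 1) = B n

def Mv (x : ℕ → V L) (A : ℕ → Finset (Sym2 (V L))) (K : Finset (Sym2 (V L))) (n : ℕ) : Prop :=
  ∃ w j, x n = w + d (j + 2) ∧ x (n + 1) = w + d j ∧
    A (n + 1) = A n ∆ {E w (j + 2)} ∆ {E w j} ∧ E w (j + 2) ∉ K ∧ E w j ∈ K

def Trk (x : ℕ → V L) (A : ℕ → Finset (Sym2 (V L))) : Prop :=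
  A 0 = ∅ ∧ ∀ s, St x A s ∨ ∃ K, Mv x A K s

theorem trk_PJ (hL : 3 ≤ L) {x : ℕ → V L} {A : ℕ → Finset (Sym2 (V L))} (hT : Trk x A)
    {f : V L → ZMod 2} {K : Finset (Sym2 (V L))} (h : PJ (fun v => f v + dl (x 0) v) K) (s : ℕ) :
    PJ (fun v => f v + dl (x s) v) (K ∆ A s) := by
  have h2 : (2 : ZMod 2) = 0 := rfl
  induction s with
  | zero => rw [hT.1]; simpa [← Finset.bot_eq_empty] using h
  | succ s ih =>
    rcases hT.2 s with hs | ⟨_, w, j, h1, h3, h4, -⟩
    · rw [hs.1, hs.2]; exact ih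
    · rw [h4, ← symmDiff_assoc, ← symmDiff_assoc]
      refine PJ_congr (PJ_tog hL (PJ_tog hL ih w (j + 2)) w j) fun v => ?_
      rw [h1, h3]
      linear_combination (dl w v + dl (w + d (j + 2)) v) * h2

theorem untouched (hL : 3 ≤ L) {x : ℕ → V L} {A : ℕ → Finset (Sym2 (V L))} (hT : Trk x A)
    {n : ℕ} {w : V L} {j : Fin 4} (hf : ∀ s ≤ n, Far (x s) (w + d (j + 2))) :
    ∀ s ≤ n, E w (j + 2) ∉ A s ∧ E w j ∉ A s := by
  have hw : w = w + d (j + 2) + d j := by rw [d_neg]; abel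
  have f1 : ∀ a b : Fin 4, a = b + 2 → b = a + 2 := by decide
  have f2 : ∀ a b : Fin 4, a + 2 = b + 2 → a = b := by decide
  intro s
  induction s with
  | zero => intro _; rw [hT.1]; simp
  | succ s ih =>
    intro hs
    have ih := ih (by omega)
    have g1 := hf s (by omega)
    have g2 := hf (s + 1) hs
    rcases hT.2 s with hs | ⟨_, u, i, h1, h3, h4, -⟩
    · rw [hs.2]; exact ih
    · rw [h1] at g1
      rw [h3] at g2
      have a1 : E w (j + 2) ≠ E u (i + 2) := by
        intro h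
        rcases E_eq hL h with ⟨rfl, h'⟩ | ⟨rfl, h'⟩
        · exact g1.1 (by rw [h'])
        · exact g1.2 _ rfl
      have a2 : E w (j + 2) ≠ E u i := by
        intro h
        rcases E_eq hL h with ⟨rfl, h'⟩ | ⟨rfl, h'⟩
        · exact g2.1 (by rw [h'])
        · exact g2.2 _ rfl
      have a3 : E w j ≠ E u (i + 2) := by
        intro h
        rcases E_eq hL h with ⟨rfl, h'⟩ | ⟨rfl, h'⟩
        · exact g2.1 (by rw [f1 _ _ h'])
        · refine g1.2 j ?_
          rw [f2 _ _ h', ← hw, d_neg]; abel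
      have a4 : E w j ≠ E u i := by
        intro h
        rcases E_eq hL h with ⟨rfl, h'⟩ | ⟨rfl, h'⟩
        · exact g1.1 (by rw [h'])
        · refine g2.2 j ?_
          rw [h', ← hw, d_neg]; abel
      rw [h4]
      simp only [mem_symmDiff, mem_singleton, a1, a2, a3, a4, ih.1, ih.2]
      simp

theorem half (hL : 3 ≤ L) {x y : ℕ → V L} {A B : ℕ → Finset (Sym2 (V L))} (hB : Trk y B)
    {K : Finset (Sym2 (V L))} {n τ : ℕ} (hf : ∀ t ≤ n, Far (y t) (x n))
    (hC : ∀ s ≤ n, ∀ t ≤ n, (K ∆ A s ∆ B t).card + 2 = τ)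
    (hm : Mv x A (K ∆ A n ∆ B n) n) (hs : St y B n) :
    ∀ s ≤ n + 1, ∀ t ≤ n + 1, (K ∆ A s ∆ B t).card + 2 = τ := by
  have main : ∀ s ≤ n + 1, ∀ t ≤ n, (K ∆ A s ∆ B t).card + 2 = τ := by
    intro s hs' t ht
    rcases Nat.lt_or_ge s (n + 1) with h | h
    · exact hC s (by omega) t ht
    · obtain rfl : s = n + 1 := by omega
      obtain ⟨w, j, h1, -, h3, h4, h5⟩ := hm
      rw [h1] at hf
      have u1 := untouched hL hB hf t ht
      have u2 := untouched hL hB hf n le_rfl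
      have hne : E w j ≠ E w (j + 2) := by
        intro h
        rcases E_eq hL h with ⟨-, h⟩ | ⟨h, -⟩
        · revert h; generalize j = j; revert j; decide
        · exact d_ne hL j (by linear_combination -h)
      have e1 : K ∆ A (n + 1) ∆ B t = (K ∆ A n ∆ B t) ∆ {E w (j + 2)} ∆ {E w j} := by
        rw [h3]; ac_rfl
      have m1 : E w (j + 2) ∉ K ∆ A n ∆ B t := by
        simp only [mem_symmDiff, u1.1, u2.1] at h4 ⊢; exact h4
      have m2 : E w j ∈ (K ∆ A n ∆ B t) ∆ {E w (j + 2)} := by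
        simp only [mem_symmDiff, mem_singleton, u1.2, u2.2, hne] at h5 ⊢; simpa using h5
      have c1 := card_tog_not m1
      have c2 := card_tog_mem m2
      have := hC n le_rfl t ht
      rw [e1]; omega
  intro s hs' t ht
  rcases Nat.lt_or_ge t (n + 1) with h | h
  · exact main s hs' t (by omega)
  · obtain rfl : t = n + 1 := by omega
    rw [hs.2]; exact main s hs' n le_rfl

theorem holes (hL : 3 ≤ L) {D : Finset (V L)} {τ : ℕ} (hmin : ∀ J, PJ (ind D) J → τ ≤ J.card)
    {x y : ℕ → V L} {A B : ℕ → Finset (Sym2 (V L))} {K : Finset (Sym2 (V L))}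
    (hA0 : A 0 = ∅) (hB0 : B 0 = ∅)
    (hK : PJ (fun v => ind D v + dl (x 0) v + dl (y 0) v) K) (hc : K.card + 2 = τ)
    (hstep : ∀ n, (Mv x A (K ∆ A n ∆ B n) n ∧ St y B n) ∨ (Mv y B (K ∆ A n ∆ B n) n ∧ St x A n)) :
    ∀ s t, Far (x s) (y t) := by
  have hA : Trk x A := ⟨hA0, fun s => by
    rcases hstep s with h | h
    · exact Or.inr ⟨_, h.1⟩
    · exact Or.inl h.2⟩
  have hB : Trk y B := ⟨hB0, fun s => by
    rcases hstep s with h | h
    · exact Or.inl h.2
    · exact Or.inr ⟨_, h.1⟩⟩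
  have hP : ∀ s t, PJ (fun v => ind D v + dl (x s) v + dl (y t) v) (K ∆ A s ∆ B t) := by
    intro s t
    have p1 := trk_PJ hL hA (f := fun v => ind D v + dl (y 0) v)
      (PJ_congr hK fun v => by ring) s
    exact trk_PJ hL hB (f := fun v => ind D v + dl (x s) v) (PJ_congr p1 fun v => by ring) t
  have hC : ∀ n, ∀ s ≤ n, ∀ t ≤ n, (K ∆ A s ∆ B t).card + 2 = τ := by
    intro n
    induction n with
    | zero =>
      intro s hs t ht
      obtain rfl : s = 0 := by omega
      obtain rfl : t = 0 := by omega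
      rw [hA0, hB0]; simpa [← Finset.bot_eq_empty] using hc
    | succ n ih =>
      rcases hstep n with h | h
      · exact half hL hB (fun t ht => (far_of hL hmin (hP n t) (ih n le_rfl t ht)).sym) ih h.1 h.2
      · have := half hL hA (K := K) (A := B) (x := y) (τ := τ)
          (fun s hs => far_of hL hmin (hP s n) (ih s hs n le_rfl))
          (fun s hs t ht => by rw [symmDiff_right_comm]; exact ih t ht s hs)
          (by rw [symmDiff_right_comm]; exact h.1) h.2
        intro s hs t ht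
        rw [symmDiff_right_comm]; exact this t ht s hs
  intro s t
  exact far_of hL hmin (hP s t) (hC (s + t) s (by omega) t (by omega))

def wt (D : Finset (V L)) : Sym2 (V L) → ℕ :=
  Sym2.lift ⟨fun a b => (if a ∈ D then 1 else 0) + (if b ∈ D then 1 else 0),
    fun _ _ => add_comm _ _⟩

def cost (D : Finset (V L)) (J : Finset (Sym2 (V L))) : ℕ := ∑ e ∈ J, wt D e

structure Good (D : Finset (V L)) (τ c : ℕ) (J : Finset (Sym2 (V L))) (v : V L) (k : Fin 4) :
    Prop where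
  pj : PJ (ind D) J
  card : J.card = τ
  cost : cost D J = c
  mem : v ∈ D
  e1 : E v k ∈ J
  e2 : E v (k + 1) ∈ J

def flp (J : Finset (Sym2 (V L))) (v : V L) (k : Fin 4) : Finset (Sym2 (V L)) :=
  J ∆ {E v k} ∆ {E v (k + 1)} ∆ {E (v + d k + d (k + 1)) (k + 2)} ∆
    {E (v + d k + d (k + 1)) (k + 3)}

theorem d_add_ne (hL : 3 ≤ L) (a b : Fin 4) (h : b ≠ a + 2) : (d a : V L) + d b ≠ 0 := by
  intro h'
  apply h
  apply d_inj hL
  rw [d_neg]
  linear_combination h'

theorem d_diag (hL : 3 ≤ L) (k j : Fin 4) : (d k : V L) + d (k + 1) ≠ d j := by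
  have h1 := one_ne hL
  have h3 : (-1 : ZMod L) ≠ 0 := by simpa using h1
  fin_cases k <;> fin_cases j <;> simp_all [d, eq_comm]

theorem E_far (hL : 3 ≤ L) (v : V L) (k a b : Fin 4) : E v a ≠ E (v + d k + d (k + 1)) b := by
  intro h
  rcases E_eq hL h with ⟨h, -⟩ | ⟨h, -⟩
  · exact d_add_ne hL k (k + 1) (by generalize k = q; revert q; decide) (by linear_combination -h)
  · exact d_diag hL k a (by linear_combination h)

theorem E_same (hL : 3 ≤ L) (v : V L) {a b : Fin 4} (hab : a ≠ b) : E v a ≠ E v b := by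
  intro h
  rcases E_eq hL h with ⟨-, h⟩ | ⟨h, -⟩
  · exact hab h
  · exact d_ne hL a (by linear_combination -h)

theorem step (hL : 3 ≤ L) {D : Finset (V L)} {τ c : ℕ} (hmin : ∀ J, PJ (ind D) J → τ ≤ J.card)
    (hcost : ∀ J, PJ (ind D) J → J.card = τ → c ≤ cost D J)
    {J : Finset (Sym2 (V L))} {v : V L} {k : Fin 4} (h : Good D τ c J v k) :
    E (v + d k + d (k + 1)) (k + 2) ∉ J ∧ E (v + d k + d (k + 1)) (k + 3) ∉ J ∧
    ∃ k', (k' = k + 1 ∨ k' = k + 3) ∧ Good D τ c (flp J v k) (v + d k + d (k + 1)) k' := by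
  have h2 : (2 : ZMod 2) = 0 := rfl
  set z := v + d k + d (k + 1) with hz
  have z2 : z + d (k + 2) = v + d (k + 1) := by rw [d_neg, hz]; abel
  have z3 : z + d (k + 3) = v + d k := by
    rw [show k + 3 = k + 1 + 2 by generalize k = q; revert q; decide, d_neg, hz]; abel
  have hP : PJ (ind D) (flp J v k) := by
    refine PJ_congr (PJ_tog hL (PJ_tog hL (PJ_tog hL (PJ_tog hL h.pj v k) v (k + 1)) z (k + 2))
      z (k + 3)) fun u => ?_
    rw [z2, z3]
    linear_combination (dl v u + dl z u + dl (v + d k) u + dl (v + d (k + 1)) u) * h2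
  have n1 : E v (k + 1) ≠ E v k := E_same hL v (by generalize k = q; revert q; decide)
  have n2 : E z (k + 3) ≠ E z (k + 2) := E_same hL z (by generalize k = q; revert q; decide)
  have n3 := fun a b => (E_far hL v k a b).symm
  rw [← hz] at n3
  have m1 : E v (k + 1) ∈ J ∆ {E v k} := by simp [mem_symmDiff, n1, h.e2]
  have c0 := card_tog_mem h.e1
  have c1 := card_tog_mem m1
  have hc := h.card
  have q2 : E z (k + 2) ∈ J ∆ {E v k} ∆ {E v (k + 1)} ↔ E z (k + 2) ∈ J := by
    simp [mem_symmDiff, n3]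
  have q3 : E z (k + 3) ∈ J ∆ {E v k} ∆ {E v (k + 1)} ∆ {E z (k + 2)} ↔ E z (k + 3) ∈ J := by
    simp [mem_symmDiff, n3, n2]
  have hm := hmin _ hP
  have r2 : E z (k + 2) ∉ J := by
    intro hh
    have a := card_tog_mem (q2.2 hh)
    have b := card_tog_le (J ∆ {E v k} ∆ {E v (k + 1)} ∆ {E z (k + 2)}) (E z (k + 3))
    unfold flp at hm
    rw [← hz] at hm
    omega
  have r3 : E z (k + 3) ∉ J := by
    intro hh
    have a := card_tog_mem (q3.2 hh)
    have b := card_tog_le (J ∆ {E v k} ∆ {E v (k + 1)}) (E z (k + 2))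
    unfold flp at hm
    rw [← hz] at hm
    omega
  have hcard : (flp J v k).card = τ := by
    have a := card_tog_not (mt q2.1 r2)
    have b := card_tog_not (mt q3.1 r3)
    unfold flp
    rw [← hz]
    omega
  have hco : cost D (flp J v k) + 2 = c + 2 * (if z ∈ D then 1 else 0) := by
    have s0 := sum_tog_mem h.e1 (wt D)
    have s1 := sum_tog_mem m1 (wt D)
    have s2 := sum_tog_not (mt q2.1 r2) (wt D)
    have s3 := sum_tog_not (mt q3.1 r3) (wt D)
    have w : ∀ u j, wt D (E u j) = (if u ∈ D then 1 else 0) + (if u + d j ∈ D then 1 else 0) :=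
      fun u j => rfl
    rw [w] at s0 s1 s2 s3
    rw [z2] at s2
    rw [z3] at s3
    have := h.cost
    simp only [h.mem, if_true] at s0 s1
    unfold cost at this ⊢
    unfold flp
    rw [← hz]
    omega
  have hcc := hcost _ hP hcard
  have hzD : z ∈ D := by
    by_contra hh
    simp only [hh, if_false] at hco
    omega
  have hco' : cost D (flp J v k) = c := by
    simp only [hzD, if_true] at hco
    omega
  have hown : E z k ∈ J ∨ E z (k + 1) ∈ J := by
    by_contra hh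
    push Not at hh
    have h1 := h.pj.2 z
    rw [jdeg_eq hL h.pj.1] at h1
    have : (univ.filter (fun j : Fin 4 => E z j ∈ J)) = ∅ := by
      apply filter_eq_empty_iff.2
      intro j _
      have : j = k ∨ j = k + 1 ∨ j = k + 2 ∨ j = k + 3 := (by decide : ∀ j k : Fin 4, j = k ∨ j = k + 1 ∨ j = k + 2 ∨ j = k + 3) j k
      rcases this with rfl | rfl | rfl | rfl
      exacts [hh.1, hh.2, r2, r3]
    rw [this] at h1
    simp [ind, hzD] at h1
  have p02 : E z k ≠ E z (k + 2) := E_same hL z (by generalize k = q; revert q; decide)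
  have p03 : E z k ≠ E z (k + 3) := E_same hL z (by generalize k = q; revert q; decide)
  have p12 : E z (k + 1) ≠ E z (k + 2) := E_same hL z (by generalize k = q; revert q; decide)
  have p13 : E z (k + 1) ≠ E z (k + 3) := E_same hL z (by generalize k = q; revert q; decide)
  refine ⟨r2, r3, ?_⟩
  rcases hown with ho | ho
  · refine ⟨k + 3, Or.inr rfl, hP, hcard, hco', hzD, ?_, ?_⟩
    · unfold flp; rw [← hz]; simp [mem_symmDiff, n3, n2, r3]
    · rw [show k + 3 + 1 = k by generalize k = q; revert q; decide]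
      unfold flp; rw [← hz]; simp [mem_symmDiff, n3, p02, p03, ho]
  · refine ⟨k + 1, Or.inl rfl, hP, hcard, hco', hzD, ?_, ?_⟩
    · unfold flp; rw [← hz]; simp [mem_symmDiff, n3, p12, p13, ho]
    · rw [show k + 1 + 1 = k + 2 by generalize k = q; revert q; decide]
      unfold flp; rw [← hz]; simp [mem_symmDiff, n3, n2.symm, r2]

def pl (v : V L) (k : Fin 4) : V L := v + ![(0, 0), (-1, 0), (-1, -1), (0, -1)] k

def cov (v : V L) (k : Fin 4) (e : Sym2 (V L)) : Prop :=
  e = E v k ∨ e = E v (k + 1) ∨ e = E (v + d k + d (k + 1)) (k + 2) ∨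
    e = E (v + d k + d (k + 1)) (k + 3)

theorem flp_not {J : Finset (Sym2 (V L))} {v : V L} {k : Fin 4} {e : Sym2 (V L)}
    (h : ¬ cov v k e) : e ∈ flp J v k ↔ e ∈ J := by
  unfold cov at h
  push Not at h
  simp [flp, mem_symmDiff, h.1, h.2.1, h.2.2.1, h.2.2.2]

theorem flp_cov (hL : 3 ≤ L) {J : Finset (Sym2 (V L))} {v : V L} {k : Fin 4} {e : Sym2 (V L)}
    (h : cov v k e) : e ∈ flp J v k ↔ e ∉ J := by
  have n1 : E v (k + 1) ≠ E v k := E_same hL v (by generalize k = q; revert q; decide)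
  have n2 : E (v + d k + d (k + 1)) (k + 3) ≠ E (v + d k + d (k + 1)) (k + 2) :=
    E_same hL _ (by generalize k = q; revert q; decide)
  have n3 := fun a b => (E_far hL v k a b).symm
  have n4 := fun a b => (E_far hL v k a b)
  rcases h with rfl | rfl | rfl | rfl <;>
    simp [flp, mem_symmDiff, n1, n2, n3, n4, n1.symm, n2.symm]

theorem cov_pl (hL : 3 ≤ L) {v p : V L} {k : Fin 4} (h : cov v k (E (p + d 0) 1)) :
    pl v k = p ∨ pl v k = p + d 0 := by
  obtain ⟨a, b⟩ := v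
  obtain ⟨p, q⟩ := p
  rcases h with h | h | h | h <;> rcases E_eq hL h with ⟨h1, h2⟩ | ⟨h1, h2⟩ <;>
    fin_cases k <;> simp [d, pl, Prod.ext_iff] at h1 h2 ⊢ <;> grind

theorem pl_cov (v : V L) (k : Fin 4) : cov v k (E (pl v k + d 0) 1) := by
  obtain ⟨a, b⟩ := v
  fin_cases k <;> simp [cov, E, d, pl, Prod.ext_iff]

theorem pl_eq {v w : V L} {k j : Fin 4} (h : pl v k = pl w j) :
    (w = v ∧ j = k) ∨ w + d j = v + d (k + 1) ∨ w = v + d k ∨ w = v + d (k + 1) := by
  obtain ⟨a, b⟩ := v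
  obtain ⟨p, q⟩ := w
  fin_cases k <;> fin_cases j <;> simp [d, pl, Prod.ext_iff] at h ⊢ <;> grind

theorem pl_corner (v : V L) (k : Fin 4) :
    ((pl v k = v ∨ pl v k = v + d k + d (k + 1)) ∧
      (pl v k + d 0 = v + d k ∨ pl v k + d 0 = v + d (k + 1))) ∨
    ((pl v k = v + d k ∨ pl v k = v + d (k + 1)) ∧
      (pl v k + d 0 = v ∨ pl v k + d 0 = v + d k + d (k + 1))) := by
  obtain ⟨a, b⟩ := v
  fin_cases k <;> simp [d, pl, Prod.ext_iff]

theorem chain_far (hL : 3 ≤ L) {D : Finset (V L)} {τ c : ℕ}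
    (hmin : ∀ J, PJ (ind D) J → τ ≤ J.card)
    {J : ℕ → Finset (Sym2 (V L))} {v : ℕ → V L} {k : ℕ → Fin 4}
    (hG : ∀ n, Good D τ c (J n) (v n) (k n))
    (hJ : ∀ n, J (n + 1) = flp (J n) (v n) (k n))
    (hv : ∀ n, v (n + 1) = v n + d (k n) + d (k n + 1))
    (hk : ∀ n, k (n + 1) = k n + 1 ∨ k (n + 1) = k n + 3)
    (hr : ∀ n, E (v (n + 1)) (k n + 2) ∉ J n ∧ E (v (n + 1)) (k n + 3) ∉ J n) :
    ∀ s t, Far (v s + d (k s)) (v t + d (k t + 1)) := by
  have h2 : (2 : ZMod 2) = 0 := rfl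
  let A : ℕ → Finset (Sym2 (V L)) := fun n => Nat.rec ∅ (fun n A =>
    if k (n + 1) = k n + 1 then A ∆ {E (v (n + 1)) (k (n + 1) + 2)} ∆ {E (v (n + 1)) (k (n + 1))}
    else A) n
  let B : ℕ → Finset (Sym2 (V L)) := fun n => Nat.rec ∅ (fun n B =>
    if k (n + 1) = k n + 1 then B else
      B ∆ {E (v (n + 1)) (k (n + 1) + 1 + 2)} ∆ {E (v (n + 1)) (k (n + 1) + 1)}) n
  let K : ℕ → Finset (Sym2 (V L)) := fun n => J n ∆ {E (v n) (k n)} ∆ {E (v n) (k n + 1)}
  have hA : ∀ n, A (n + 1) = if k (n + 1) = k n + 1 then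
      A n ∆ {E (v (n + 1)) (k (n + 1) + 2)} ∆ {E (v (n + 1)) (k (n + 1))} else A n :=
    fun n => rfl
  have hB : ∀ n, B (n + 1) = if k (n + 1) = k n + 1 then B n else
      B n ∆ {E (v (n + 1)) (k (n + 1) + 1 + 2)} ∆ {E (v (n + 1)) (k (n + 1) + 1)} :=
    fun n => rfl
  have hJK : ∀ n, J (n + 1) = K n ∆ {E (v (n + 1)) (k n + 2)} ∆ {E (v (n + 1)) (k n + 3)} := by
    intro n; rw [hJ, hv]; rfl
  have f1 : ∀ q : Fin 4, q + 1 + 2 = q + 3 ∧ q + 1 + 1 = q + 2 ∧ q + 3 + 1 = q ∧ q + 3 ≠ q + 1 ∧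
      q + 1 ≠ q + 2 ∧ q + 1 ≠ q + 3 ∧ q ≠ q + 2 ∧ q ≠ q + 3 := by decide
  have canc : ∀ (X : Finset (Sym2 (V L))) a b c, X ∆ a ∆ b ∆ c ∆ a = X ∆ b ∆ c := by
    intro X a b c
    have : X ∆ a ∆ b ∆ c ∆ a = X ∆ b ∆ c ∆ (a ∆ a) := by ac_rfl
    rw [this]; simp
  have canc' : ∀ (X : Finset (Sym2 (V L))) a b c, X ∆ a ∆ b ∆ b ∆ c = X ∆ a ∆ c := by
    intro X a b c
    have : X ∆ a ∆ b ∆ b ∆ c = X ∆ a ∆ c ∆ (b ∆ b) := by ac_rfl
    rw [this]; simp
  have hK : ∀ n, K n = K 0 ∆ A n ∆ B n := by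
    intro n
    induction n with
    | zero => show K 0 = K 0 ∆ ∅ ∆ ∅; simp [← Finset.bot_eq_empty]
    | succ n ih =>
      obtain ⟨g1, g2, g3, g4, -⟩ := f1 (k n)
      show J (n + 1) ∆ _ ∆ _ = _
      rw [hJK, hA, hB, ih]
      rcases hk n with h | h
      · rw [h]; simp only [if_true]
        rw [g1, g2, canc]; ac_rfl
      · rw [h]; simp only [g4, if_false]
        rw [g3, canc']; ac_rfl
  have hz : ∀ n, v (n + 1) + d (k n + 2) = v n + d (k n + 1) ∧
      v (n + 1) + d (k n + 3) = v n + d (k n) := by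
    intro n
    constructor
    · rw [d_neg, hv]; abel
    · rw [← (f1 (k n)).1, d_neg, hv]; abel
  have hKm : ∀ n j, E (v (n + 1)) j ∈ K n ↔ E (v (n + 1)) j ∈ J n := by
    intro n j
    have n3 := fun a b => (E_far hL (v n) (k n) a b).symm
    rw [← hv] at n3
    simp [K, mem_symmDiff, n3]
  have n1 : E (v 0) (k 0 + 1) ≠ E (v 0) (k 0) :=
    E_same hL _ (by generalize k 0 = q; revert q; decide)
  refine holes hL hmin (A := A) (B := B) (K := K 0) rfl rfl ?_ ?_ ?_
  · refine PJ_congr (PJ_tog hL (PJ_tog hL (hG 0).pj (v 0) (k 0)) (v 0) (k 0 + 1)) fun u => ?_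
    linear_combination (dl (v 0) u) * h2
  · have c0 := card_tog_mem (hG 0).e1
    have m1 : E (v 0) (k 0 + 1) ∈ J 0 ∆ {E (v 0) (k 0)} := by simp [mem_symmDiff, n1, (hG 0).e2]
    have c1 := card_tog_mem m1
    have := (hG 0).card
    show (J 0 ∆ _ ∆ _).card + 2 = τ
    omega
  · intro n
    obtain ⟨g1, g2, g3, g4, g5, g6, g7, g8⟩ := f1 (k n)
    rw [← hK]
    rcases hk n with h | h
    · left
      refine ⟨⟨v (n + 1), k (n + 1), ?_, rfl, ?_, ?_, ?_⟩, ?_, ?_⟩
      · rw [h, g1, (hz n).2]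
      · rw [hA, if_pos h]
      · rw [hKm, h, g1]; exact (hr n).2
      · have := (hG (n + 1)).e1
        rw [hJK, h] at this
        rw [h]
        simpa [mem_symmDiff, E_same hL (v (n + 1)) g5, E_same hL (v (n + 1)) g6] using this
      · show v (n + 1) + d (k (n + 1) + 1) = _
        rw [h, g2, (hz n).1]
      · rw [hB, if_pos h]
    · right
      have h' : ¬ k (n + 1) = k n + 1 := by rw [h]; exact g4
      refine ⟨⟨v (n + 1), k (n + 1) + 1, ?_, rfl, ?_, ?_, ?_⟩, ?_, ?_⟩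
      · rw [h, g3, (hz n).1]
      · rw [hB, if_neg h']
      · rw [hKm, h, g3]; exact (hr n).1
      · have := (hG (n + 1)).e2
        rw [hJK, h, g3] at this
        rw [h, g3]
        simpa [mem_symmDiff, E_same hL (v (n + 1)) g7, E_same hL (v (n + 1)) g8] using this
      · show v (n + 1) + d (k (n + 1)) = _
        rw [h, (hz n).2]
      · rw [hA, if_neg h']

theorem no_chain (hL : 3 ≤ L) (hodd : Odd L) {D : Finset (V L)} {τ c : ℕ}
    (hmin : ∀ J, PJ (ind D) J → τ ≤ J.card)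
    {J : ℕ → Finset (Sym2 (V L))} {v : ℕ → V L} {k : ℕ → Fin 4}
    (hG : ∀ n, Good D τ c (J n) (v n) (k n))
    (hJ : ∀ n, J (n + 1) = flp (J n) (v n) (k n))
    (hv : ∀ n, v (n + 1) = v n + d (k n) + d (k n + 1))
    (hk : ∀ n, k (n + 1) = k n + 1 ∨ k (n + 1) = k n + 3)
    (hr : ∀ n, E (v (n + 1)) (k n + 2) ∉ J n ∧ E (v (n + 1)) (k n + 3) ∉ J n) : False := by
  classical
  have : NeZero L := ⟨by omega⟩
  have hF := chain_far hL hmin hG hJ hv hk hr
  have tx : ∀ s t, v t ≠ v s + d (k s) := by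
    intro s t h
    refine (hF s t).2 (k t + 1 + 2) ?_
    rw [d_neg, ← h]; abel
  have ty : ∀ s t, v t ≠ v s + d (k s + 1) := by
    intro s t h
    exact (hF t s).2 (k t) (by rw [h])
  have same : ∀ i j, pl (v i) (k i) = pl (v j) (k j) → v j = v i ∧ k j = k i := by
    intro i j h
    rcases pl_eq h with h | h | h | h
    · exact h
    · exact absurd h (hF j i).1
    · exact absurd h (tx i j)
    · exact absurd h (ty i j)
  let Q : V L → Prop := fun p => ∀ N, ∃ n, N < n ∧ pl (v n) (k n) = p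
  have hQ : ∀ p, Q p → Q (p + d 0) := by
    intro p hp N
    by_contra hn
    push Not at hn
    obtain ⟨i, hi, hpi⟩ := hp N
    have hex : ∃ j, i < j ∧ pl (v j) (k j) = p := hp i
    have hj := Nat.find_spec hex
    have hmn := fun m => @Nat.find_min _ _ hex m
    set j := Nat.find hex
    have hc : cov (v i) (k i) (E (p + d 0) 1) := by rw [← hpi]; exact pl_cov _ _
    have st : ∀ m, i + 1 + m ≤ j → (E (p + d 0) 1 ∈ J (i + 1 + m) ↔ E (p + d 0) 1 ∉ J i) := by
      intro m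
      induction m with
      | zero => intro _; rw [add_zero, hJ]; exact flp_cov hL hc
      | succ m ih =>
        intro hm
        rw [← add_assoc, hJ, flp_not, ih (by omega)]
        intro hc'
        rcases cov_pl hL hc' with h | h
        · exact hmn (i + 1 + m) (by omega) ⟨by omega, h⟩
        · exact hn (i + 1 + m) (by omega) h
    have fin := st (j - (i + 1)) (by omega)
    rw [show i + 1 + (j - (i + 1)) = j by omega] at fin
    obtain ⟨s1, s2⟩ := same i j (hpi.trans hj.2.symm)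
    have a1 := (hG i).e1
    have a2 := (hG i).e2
    have b1 := (hG j).e1
    have b2 := (hG j).e2
    have a3 := hr i
    have b3 := hr j
    rw [hv] at a3 b3
    rw [s1, s2] at b1 b2 b3
    rcases hc with h | h | h | h <;> rw [h] at fin <;> tauto
  obtain ⟨p, hp⟩ := Finite.exists_infinite_fiber (fun n => pl (v n) (k n))
  have hp0 : Q p := by
    intro N
    obtain ⟨n, hn, hN⟩ := (Set.infinite_coe_iff.1 hp).exists_gt N
    exact ⟨n, hN, hn⟩
  have hall : ∀ m : ℕ, Q (p + m • d 0) := by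
    intro m
    induction m with
    | zero => simpa using hp0
    | succ m ih => rw [succ_nsmul, ← add_assoc]; exact hQ _ ih
  have alt : ∀ q, Q q → ((∃ t, v t = q + d 0) ↔ ¬ ∃ t, v t = q) := by
    intro q hq
    obtain ⟨n, -, rfl⟩ := hq 0
    have t1 : ∀ u, (u = v n ∨ u = v n + d (k n) + d (k n + 1)) → ∃ t, v t = u := by
      rintro u (rfl | rfl)
      exacts [⟨n, rfl⟩, ⟨n + 1, hv n⟩]
    have t2 : ∀ u, (u = v n + d (k n) ∨ u = v n + d (k n + 1)) → ¬ ∃ t, v t = u := by
      rintro u (rfl | rfl) ⟨t, ht⟩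
      exacts [tx n t ht, ty n t ht]
    rcases pl_corner (v n) (k n) with ⟨h1, h2⟩ | ⟨h1, h2⟩
    · exact iff_of_false (t2 _ h2) (not_not.2 (t1 _ h1))
    · exact iff_of_true (t1 _ h2) (t2 _ h1)
  have par : ∀ m : ℕ, (∃ t, v t = p + m • d 0) ↔ ((∃ t, v t = p) ↔ Even m) := by
    intro m
    induction m with
    | zero => simp
    | succ m ih => rw [succ_nsmul, ← add_assoc, alt _ (hall m), ih, Nat.even_add_one]; tauto
  have := par L
  have h0 : L • (d 0 : V L) = 0 := by ext <;> simp [d]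
  rw [h0, add_zero] at this
  have := Nat.not_even_iff_odd.2 hodd
  tauto

theorem result (L : ℕ) (hodd : Odd L) (hL : 3 ≤ L) (D : Finset (ZMod L × ZMod L))
    (hD : Even D.card) :
    ∃ J, IsJoin D J ∧ (∀ J', IsJoin D J' → J.card ≤ J'.card) ∧ ∀ v ∈ D, jdeg J v = 1 := by
  classical
  have hex : ∃ n, ∃ J, PJ (ind D) J ∧ J.card = n := by
    obtain ⟨J, hJ⟩ := exists_join hL D hD
    exact ⟨_, J, hJ, rfl⟩
  have hmin : ∀ J, PJ (ind D) J → Nat.find hex ≤ J.card := fun J hJ =>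
    Nat.find_min' hex ⟨J, hJ, rfl⟩
  have hex2 : ∃ n, ∃ J, PJ (ind D) J ∧ J.card = Nat.find hex ∧ cost D J = n := by
    obtain ⟨J, hJ, hc⟩ := Nat.find_spec hex
    exact ⟨_, J, hJ, hc, rfl⟩
  have hcost : ∀ J, PJ (ind D) J → J.card = Nat.find hex → Nat.find hex2 ≤ cost D J :=
    fun J hJ hc => Nat.find_min' hex2 ⟨J, hJ, hc, rfl⟩
  obtain ⟨J, hJ, hc, hco⟩ := Nat.find_spec hex2
  refine ⟨J, (join_iff D J).2 hJ, fun J' h => hc ▸ hmin J' ((join_iff D J').1 h), fun v hv => ?_⟩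
  by_contra hne
  have hk : ∃ k : Fin 4, E v k ∈ J ∧ E v (k + 1) ∈ J := by
    have ho := ((join_iff D J).2 hJ).2.1 v hv
    rw [jdeg_eq hL hJ.1] at ho hne
    exact (by decide : ∀ S : Finset (Fin 4), Odd S.card → ¬ S.card = 1 →
      ∃ k, k ∈ S ∧ k + 1 ∈ S) _ ho hne |>.imp fun k hk => by simpa using hk
  obtain ⟨k, e1, e2⟩ := hk
  let S := {s : Finset (Sym2 (V L)) × V L × Fin 4 //
    Good D (Nat.find hex) (Nat.find hex2) s.1 s.2.1 s.2.2}
  have hs : ∀ s : S, ∃ t : S, t.1.1 = flp s.1.1 s.1.2.1 s.1.2.2 ∧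
      t.1.2.1 = s.1.2.1 + d s.1.2.2 + d (s.1.2.2 + 1) ∧
      (t.1.2.2 = s.1.2.2 + 1 ∨ t.1.2.2 = s.1.2.2 + 3) := by
    intro s
    obtain ⟨-, -, k', h1, h2⟩ := step hL hmin hcost s.2
    exact ⟨⟨(_, _, k'), h2⟩, rfl, rfl, h1⟩
  choose nx h1 h2 h3 using hs
  let s0 : S := ⟨(J, v, k), ⟨hJ, hc, hco, hv, e1, e2⟩⟩
  refine no_chain hL hodd hmin (J := fun n => (nx^[n] s0).1.1) (v := fun n => (nx^[n] s0).1.2.1)
    (k := fun n => (nx^[n] s0).1.2.2) (fun n => (nx^[n] s0).2) ?_ ?_ ?_ ?_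
  · intro n; simp only [Function.iterate_succ_apply']; exact h1 _
  · intro n; simp only [Function.iterate_succ_apply']; exact h2 _
  · intro n; simp only [Function.iterate_succ_apply']; exact h3 _
  · intro n
    simp only [Function.iterate_succ_apply']
    rw [h2]
    have := step hL hmin hcost (nx^[n] s0).2
    exact ⟨this.1, this.2.1⟩

end Pool.Agent.Results.MP_6e06a5_co.DegOne
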